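import Pool.Agent.H98.RFZ.Targets

/-!
# DM: monotonicity in the domain
-/

set_option autoImplicit false

namespace Pool.Agent.H34.RFZ

open Pool.Agent.H98.RFC Pool.Agent.H98.RFZ

theorem pf_DM (hMB : Z_MB) (hRES : Z_RES) : Z_DM := by
  intro R J hJ h W Λ hW x hx
  rw [Finset.mem_inter] at hx
  obtain ⟨hx, hxW⟩ := hx
  unfold Ds at hx ⊢
  rw [Finset.mem_sdiff] at hx ⊢
  have hWΛ : (↑W : Set Site) ⊆ ↑Λ := Finset.coe_subset.mpr hW
  have hd1 : Disjoint ((↑(gp R J h Λ (↑Λ)ᶜ \ W) ∪ (↑Λ)ᶜ : Set Site)) (↑W : Set Site) := by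
    rw [Set.disjoint_left]
    rintro y (hy | hy) hyW
    · rw [Finset.mem_coe, Finset.mem_sdiff] at hy
      exact hy.2 hyW
    · exact hy (hWΛ hyW)
  have hd2 : Disjoint ((↑W)ᶜ : Set Site) (↑W : Set Site) := disjoint_compl_left
  have hs1 : (↑(gp R J h Λ (↑Λ)ᶜ \ W) ∪ (↑Λ)ᶜ : Set Site) ⊆ (↑W)ᶜ := by
    rintro y (hy | hy) hyW
    · rw [Finset.mem_coe, Finset.mem_sdiff] at hy
      exact hy.2 hyW
    · exact hy (hWΛ hyW)
  have hd3 : Disjoint ((↑(gn R J h Λ ∅ \ W) ∪ ∅ : Set Site)) (↑W : Set Site) := by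
    rw [Set.disjoint_left]
    rintro y (hy | hy) hyW
    · rw [Finset.mem_coe, Finset.mem_sdiff] at hy
      exact hy.2 hyW
    · exact hy
  have hr1 := (hRES R J hJ h W Λ (↑Λ)ᶜ hW disjoint_compl_left).1
  have hr2 := (hRES R J hJ h W Λ ∅ hW (Set.empty_disjoint _)).2
  constructor
  · apply (hMB R J hJ h W _ _ hs1 hd1 hd2).1
    rw [← hr1, Finset.mem_inter]
    exact ⟨hx.1, hxW⟩
  · intro hxn
    have h1 := (hMB R J hJ h W ∅ _ (Set.empty_subset _) (Set.empty_disjoint _) hd3).2 hxn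
    rw [← hr2, Finset.mem_inter] at h1
    exact hx.2 h1.1

end Pool.Agent.H34.RFZ
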