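import Pool.Agent.H98.RFC.Targets
import Pool.Agent.H98.RFZ.Targets

/-!
# LAT: unions and intersections of ground states
-/

set_option autoImplicit false

namespace Pool.Agent.H34.RFZ

open Pool.Agent.H98.RFC Pool.Agent.H98.RFZ

theorem mem_gs {R : ℕ} {J h : Site → ℝ} {Λ : Finset Site} {B : Set Site} {S : Finset Site} :
    S ∈ gs R J h Λ B ↔ S ⊆ Λ ∧ ∀ S' ⊆ Λ, en R J h Λ (↑S ∪ B) ≤ en R J h Λ (↑S' ∪ B) := by
  unfold gs
  rw [Finset.mem_filter, Finset.mem_powerset]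
  simp only [Finset.mem_powerset]

theorem gs_nonempty (R : ℕ) (J h : Site → ℝ) (Λ : Finset Site) (B : Set Site) :
    (gs R J h Λ B).Nonempty := by
  obtain ⟨S, hS, hmin⟩ := Finset.exists_min_image Λ.powerset
    (fun S : Finset Site => en R J h Λ (↑S ∪ B)) ⟨∅, Finset.empty_mem_powerset _⟩
  refine ⟨S, mem_gs.mpr ⟨Finset.mem_powerset.mp hS, ?_⟩⟩
  intro S' hS'
  exact hmin S' (Finset.mem_powerset.mpr hS')

theorem gs_lat (hSUB : T_SUB) (R : ℕ) (J : Site → ℝ) (hJ : IsCoupling R J) (h : Site → ℝ)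
    (Λ : Finset Site) (B : Set Site) (S : Finset Site) (hS : S ∈ gs R J h Λ B)
    (S' : Finset Site) (hS' : S' ∈ gs R J h Λ B) :
    S ∪ S' ∈ gs R J h Λ B ∧ S ∩ S' ∈ gs R J h Λ B := by
  rw [mem_gs] at hS hS'
  have h1 := hSUB R J hJ h Λ (↑S ∪ B) (↑S' ∪ B)
  have h2 : ((↑S ∪ B) ∩ (↑S' ∪ B) : Set Site) = ↑(S ∩ S') ∪ B := by
    rw [Finset.coe_inter, Set.inter_union_distrib_right]
  have h3 : ((↑S ∪ B) ∪ (↑S' ∪ B) : Set Site) = ↑(S ∪ S') ∪ B := by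
    rw [Finset.coe_union]
    ext x
    simp only [Set.mem_union]
    tauto
  rw [h2, h3] at h1
  have hu : S ∪ S' ⊆ Λ := Finset.union_subset hS.1 hS'.1
  have hi : S ∩ S' ⊆ Λ := Finset.inter_subset_left.trans hS.1
  have h4 := hS.2 _ hu
  have h5 := hS.2 _ hi
  have h6 := hS'.2 _ hS.1
  have h7 := hS.2 _ hS'.1
  rw [mem_gs, mem_gs]
  refine ⟨⟨hu, fun T hT => ?_⟩, ⟨hi, fun T hT => ?_⟩⟩
  · have h8 := hS.2 T hT
    linarith
  · have h8 := hS.2 T hT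
    linarith

theorem gp_eq (R : ℕ) (J h : Site → ℝ) (Λ : Finset Site) (B : Set Site) :
    gp R J h Λ B = (gs R J h Λ B).sup' (gs_nonempty R J h Λ B) id := by
  ext x
  rw [Finset.sup'_eq_sup, Finset.mem_sup]
  unfold gp
  rw [Finset.mem_filter]
  constructor
  · rintro ⟨_, S, hS, hx⟩
    exact ⟨S, hS, hx⟩
  · rintro ⟨S, hS, hx⟩
    exact ⟨(mem_gs.mp hS).1 hx, S, hS, hx⟩

theorem gn_eq (R : ℕ) (J h : Site → ℝ) (Λ : Finset Site) (B : Set Site) :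
    gn R J h Λ B = (gs R J h Λ B).inf' (gs_nonempty R J h Λ B) id := by
  ext x
  rw [← Finset.singleton_subset_iff (s := (gs R J h Λ B).inf' _ id), ← Finset.le_iff_subset,
    Finset.le_inf'_iff]
  unfold gn
  rw [Finset.mem_filter]
  constructor
  · rintro ⟨_, hx⟩ S hS
    exact Finset.singleton_subset_iff.mpr (hx S hS)
  · intro hx
    obtain ⟨S, hS⟩ := gs_nonempty R J h Λ B
    exact ⟨(mem_gs.mp hS).1 (Finset.singleton_subset_iff.mp (hx S hS)),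
      fun S' hS' => Finset.singleton_subset_iff.mp (hx S' hS')⟩

theorem pf_LAT (hSUB : T_SUB) : Z_LAT := by
  intro R J hJ h Λ B _
  refine ⟨fun S hS S' hS' => gs_lat hSUB R J hJ h Λ B S hS S' hS', ?_, ?_, ?_⟩
  · rw [gp_eq]
    exact Finset.sup'_mem (↑(gs R J h Λ B)) (fun S hS S' hS' =>
      (gs_lat hSUB R J hJ h Λ B S hS S' hS').1) _ _ _ fun S hS => hS
  · rw [gn_eq]
    exact Finset.inf'_mem (↑(gs R J h Λ B)) (fun S hS S' hS' =>
      (gs_lat hSUB R J hJ h Λ B S hS S' hS').2) _ _ _ fun S hS => hS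
  · intro S hS
    rw [gp_eq, gn_eq]
    exact ⟨Finset.inf'_le id hS, Finset.le_sup' id hS⟩

end Pool.Agent.H34.RFZ
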